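import Pool.Agent.Helper94.DG.Defs

/-!
# Product spaces: the hybrid argument and the push forward of product measures
-/

set_option autoImplicit false

open Finset

namespace Pool.Agent.Helper18.DG

open Pool.Agent.Helper94.DG

theorem sum_cons {α : Type} [Fintype α] {r : ℕ} (F : (Fin (r + 1) → α) → ℝ) :
    ∑ D : Fin (r + 1) → α, F D = ∑ x : α, ∑ D : Fin r → α, F (Fin.cons x D) := by
  rw [← Fintype.sum_prod_type (fun p : α × (Fin r → α) => F (Fin.cons p.1 p.2))]
  exact (Fintype.sum_equiv (Fin.consEquiv (fun _ : Fin (r + 1) => α)) _ _ (fun p => rfl)).symm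

theorem map_cons {α β : Type} {r : ℕ} (c : Fin (r + 1) → α → β) (x : α) (D : Fin r → α) :
    (fun q => c q ((Fin.cons x D : Fin (r + 1) → α) q)) =
      (Fin.cons (c 0 x) (fun q => c q.succ (D q)) : Fin (r + 1) → β) := by
  funext q
  refine Fin.cases ?_ (fun q => ?_) q
  · simp
  · simp

theorem prod_cons' {α : Type} {r : ℕ} (ρ : Fin (r + 1) → α → ℝ) (x : α) (D : Fin r → α) :
    ∏ q, ρ q ((Fin.cons x D : Fin (r + 1) → α) q) = ρ 0 x * ∏ q : Fin r, ρ q.succ (D q) := by
  rw [Fin.prod_univ_succ]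
  simp

theorem sum_prod_one {β : Type} [Fintype β] {r : ℕ} (ν : Fin r → β → ℝ)
    (hν1 : ∀ q, ∑ y, ν q y = 1) : ∑ S : Fin r → β, ∏ q, ν q (S q) = 1 := by
  classical
  have h := Finset.prod_univ_sum (fun _ : Fin r => (univ : Finset β)) (fun q y => ν q y)
  rw [Fintype.piFinset_univ] at h
  rw [← h]
  simp [hν1]

/-- The hybrid argument for product measures. -/
theorem hybrid {α β : Type} [Fintype α] [Fintype β] (r : ℕ) (ρ : Fin r → α → ℝ)
    (ν : Fin r → β → ℝ) (c : Fin r → α → β) (ε : Fin r → ℝ) (hρ0 : ∀ q x, 0 ≤ ρ q x)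
    (hρ1 : ∀ q, ∑ x, ρ q x = 1) (hν0 : ∀ q y, 0 ≤ ν q y) (hν1 : ∀ q, ∑ y, ν q y = 1)
    (h : ∀ q (Ψ : β → ℝ), (∀ y, 0 ≤ Ψ y) → (∀ y, Ψ y ≤ 1) →
      ∑ x, ρ q x * Ψ (c q x) ≤ ∑ y, ν q y * Ψ y + ε q)
    (Φ : (Fin r → β) → ℝ) (h0 : ∀ S, 0 ≤ Φ S) (h1 : ∀ S, Φ S ≤ 1) :
    ∑ D : Fin r → α, (∏ q, ρ q (D q)) * Φ (fun q => c q (D q)) ≤
      ∑ S : Fin r → β, (∏ q, ν q (S q)) * Φ S + ∑ q, ε q := by
  induction r with
  | zero =>
    have e : ∀ (D : Fin 0 → α) , (fun q => c q (D q)) = (fun q : Fin 0 => q.elim0 : Fin 0 → β) :=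
      fun D => funext fun q => q.elim0
    have e' : ∀ (S : Fin 0 → β), S = (fun q : Fin 0 => q.elim0 : Fin 0 → β) :=
      fun S => funext fun q => q.elim0
    simp only [e, univ_eq_empty, prod_empty, sum_empty, one_mul, add_zero]
    have hS : ∀ S : Fin 0 → β, Φ S = Φ (fun q : Fin 0 => q.elim0) := fun S => by rw [e' S]
    simp only [hS]
    simp
  | succ r ih =>
    rw [sum_cons, sum_cons]
    simp only [prod_cons']
    simp only [map_cons c]
    set G : β → ℝ := fun y => ∑ S : Fin r → β, (∏ q : Fin r, ν q.succ (S q)) *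
      Φ (Fin.cons y S : Fin (r + 1) → β) with hG
    have hG0 : ∀ y, 0 ≤ G y := fun y => Finset.sum_nonneg fun S _ =>
      mul_nonneg (Finset.prod_nonneg fun q _ => hν0 _ _) (h0 _)
    have hG1 : ∀ y, G y ≤ 1 := by
      intro y
      rw [← sum_prod_one (fun q : Fin r => ν q.succ) (fun q => hν1 _)]
      refine Finset.sum_le_sum fun S _ => ?_
      exact mul_le_of_le_one_right (Finset.prod_nonneg fun q _ => hν0 _ _) (h1 _)
    have hin : ∀ x : α, ∑ D : Fin r → α, (∏ q : Fin r, ρ q.succ (D q)) *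
        Φ (Fin.cons (c 0 x) (fun q => c q.succ (D q)) : Fin (r + 1) → β) ≤
        G (c 0 x) + ∑ q : Fin r, ε q.succ := by
      intro x
      exact ih (fun q => ρ q.succ) (fun q => ν q.succ) (fun q => c q.succ) (fun q => ε q.succ)
        (fun q => hρ0 _) (fun q => hρ1 _) (fun q => hν0 _) (fun q => hν1 _) (fun q => h _)
        (fun S => Φ (Fin.cons (c 0 x) S : Fin (r + 1) → β)) (fun S => h0 _) (fun S => h1 _)
    calc ∑ x, ∑ D : Fin r → α, ρ 0 x * (∏ q : Fin r, ρ q.succ (D q)) *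
          Φ (Fin.cons (c 0 x) (fun q => c q.succ (D q)) : Fin (r + 1) → β)
        = ∑ x, ρ 0 x * ∑ D : Fin r → α, (∏ q : Fin r, ρ q.succ (D q)) *
          Φ (Fin.cons (c 0 x) (fun q => c q.succ (D q)) : Fin (r + 1) → β) := by
          refine Finset.sum_congr rfl fun x _ => ?_
          rw [Finset.mul_sum]
          exact Finset.sum_congr rfl fun D _ => by ring
      _ ≤ ∑ x, ρ 0 x * (G (c 0 x) + ∑ q : Fin r, ε q.succ) :=
          Finset.sum_le_sum fun x _ => mul_le_mul_of_nonneg_left (hin x) (hρ0 _ _)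
      _ = ∑ x, ρ 0 x * G (c 0 x) + ∑ q : Fin r, ε q.succ := by
          simp only [mul_add, Finset.sum_add_distrib]
          rw [← Finset.sum_mul, hρ1, one_mul]
      _ ≤ (∑ y, ν 0 y * G y + ε 0) + ∑ q : Fin r, ε q.succ := by
          have := h 0 G hG0 hG1
          linarith
      _ = ∑ y, ∑ S : Fin r → β, ν 0 y * (∏ q : Fin r, ν q.succ (S q)) *
          Φ (Fin.cons y S : Fin (r + 1) → β) + ∑ q, ε q := by
          rw [Fin.sum_univ_succ, ← add_assoc]
          congr 2
          refine Finset.sum_congr rfl fun y _ => ?_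
          rw [hG, Finset.mul_sum]
          exact Finset.sum_congr rfl fun S _ => by ring

/-- The push forward of a product measure whose factors are pushed to multiples of the counting
measure. -/
theorem push {α β : Type} [Fintype α] [Fintype β] (r : ℕ) (ρ : Fin r → α → ℝ) (π : α → β)
    (κ : ℝ) (h : ∀ q (g : β → ℝ), ∑ x, ρ q x * g (π x) = (∑ y, g y) * κ)
    (g : (Fin r → β) → ℝ) :
    ∑ D : Fin r → α, (∏ q, ρ q (D q)) * g (fun q => π (D q)) = (∑ T, g T) * κ ^ r := by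
  induction r with
  | zero =>
    have e : ∀ (D : Fin 0 → α) , (fun q => π (D q)) = (fun q : Fin 0 => q.elim0 : Fin 0 → β) :=
      fun D => funext fun q => q.elim0
    have e' : ∀ (S : Fin 0 → β), S = (fun q : Fin 0 => q.elim0 : Fin 0 → β) :=
      fun S => funext fun q => q.elim0
    simp only [e, univ_eq_empty, prod_empty, one_mul, pow_zero, mul_one]
    have hS : ∀ S : Fin 0 → β, g S = g (fun q : Fin 0 => q.elim0) := fun S => by rw [e' S]
    simp only [hS]
    simp
  | succ r ih =>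
    rw [sum_cons, sum_cons]
    simp only [prod_cons']
    simp only [map_cons (fun _ : Fin (r + 1) => π)]
    have hin : ∀ x : α, ∑ D : Fin r → α, (∏ q : Fin r, ρ q.succ (D q)) *
        g (Fin.cons (π x) (fun q => π (D q)) : Fin (r + 1) → β) =
        (∑ T : Fin r → β, g (Fin.cons (π x) T : Fin (r + 1) → β)) * κ ^ r := by
      intro x
      exact ih (fun q => ρ q.succ) (fun q => h _)
        (fun T => g (Fin.cons (π x) T : Fin (r + 1) → β))
    calc ∑ x, ∑ D : Fin r → α, ρ 0 x * (∏ q : Fin r, ρ q.succ (D q)) *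
          g (Fin.cons (π x) (fun q => π (D q)) : Fin (r + 1) → β)
        = ∑ x, ρ 0 x * ((∑ T : Fin r → β, g (Fin.cons (π x) T : Fin (r + 1) → β)) * κ ^ r) := by
          refine Finset.sum_congr rfl fun x _ => ?_
          rw [← hin x, Finset.mul_sum]
          exact Finset.sum_congr rfl fun D _ => by ring
      _ = (∑ y, ∑ T : Fin r → β, g (Fin.cons y T : Fin (r + 1) → β)) * κ ^ (r + 1) := by
          rw [h 0 (fun y => (∑ T : Fin r → β, g (Fin.cons y T : Fin (r + 1) → β)) * κ ^ r),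
            ← Finset.sum_mul]
          ring

/-- The product of the planted triangles is uniform. -/
theorem marginal4 {m L : ℕ}
    (marginal : ∀ (a b : Fin m → Fin m → Fin L → ℕ) (c : Fin m → Fin m → Fin (2 * L) → ℕ)
      (g : Fin m × Fin m × Fin m → ℝ),
      ∑ D : Data m L, mass a b c D * g D.2.1 = (∑ T, g T) / (m : ℝ) ^ 3)
    (a b : Fin 4 → Fin m → Fin m → Fin L → ℕ)
    (c : Fin 4 → Fin m → Fin m → Fin (2 * L) → ℕ)
    (g : (Fin 4 → Fin m × Fin m × Fin m) → ℝ) :
    ∑ D : Fin 4 → Data m L, (∏ q, mass (a q) (b q) (c q) (D q)) * g (fun q => (D q).2.1) =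
      (∑ T, g T) / ((m : ℝ) ^ 3) ^ 4 := by
  have h := push 4 (fun q => mass (a q) (b q) (c q)) (fun D : Data m L => D.2.1)
    (((m : ℝ) ^ 3)⁻¹) (fun q g => by rw [marginal, div_eq_mul_inv]) g
  rw [h, div_eq_mul_inv, inv_pow]

end Pool.Agent.Helper18.DG
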