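import Pool.Agent.Helper18.DG.Hybrid
import Pool.Agent.Helper14.DG.Law1

/-!
# The joint law of the four planted triangles and of a corner
-/

set_option autoImplicit false

open Finset

namespace Pool.Agent.Helper18.DG

open Pool.Agent.Helper94.DG

/-- The push forward of a product measure. -/
theorem push2 {α β : Type} [Fintype α] [Fintype β] (r : ℕ) (ρ : Fin r → α → ℝ)
    (ν : Fin r → β → ℝ) (c : Fin r → α → β) (κ : ℝ)
    (h : ∀ q (g : β → ℝ), ∑ x, ρ q x * g (c q x) = (∑ y, ν q y * g y) * κ)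
    (g : (Fin r → β) → ℝ) :
    ∑ D : Fin r → α, (∏ q, ρ q (D q)) * g (fun q => c q (D q)) =
      (∑ S : Fin r → β, (∏ q, ν q (S q)) * g S) * κ ^ r := by
  induction r with
  | zero =>
    have e : ∀ (D : Fin 0 → α) , (fun q => c q (D q)) = (fun q : Fin 0 => q.elim0 : Fin 0 → β) :=
      fun D => funext fun q => q.elim0
    have e' : ∀ (S : Fin 0 → β), S = (fun q : Fin 0 => q.elim0 : Fin 0 → β) :=
      fun S => funext fun q => q.elim0
    simp only [e, univ_eq_empty, prod_empty, one_mul, pow_zero, mul_one]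
    have hS : ∀ S : Fin 0 → β, g S = g (fun q : Fin 0 => q.elim0) := fun S => by rw [e' S]
    simp only [hS]
    simp
  | succ r ih =>
    rw [sum_cons, sum_cons]
    simp only [prod_cons']
    simp only [map_cons c]
    have hin : ∀ x : α, ∑ D : Fin r → α, (∏ q : Fin r, ρ q.succ (D q)) *
        g (Fin.cons (c 0 x) (fun q => c q.succ (D q)) : Fin (r + 1) → β) =
        (∑ S : Fin r → β, (∏ q : Fin r, ν q.succ (S q)) *
          g (Fin.cons (c 0 x) S : Fin (r + 1) → β)) * κ ^ r := by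
      intro x
      exact ih (fun q => ρ q.succ) (fun q => ν q.succ) (fun q => c q.succ) (fun q => h _)
        (fun S => g (Fin.cons (c 0 x) S : Fin (r + 1) → β))
    calc ∑ x, ∑ D : Fin r → α, ρ 0 x * (∏ q : Fin r, ρ q.succ (D q)) *
          g (Fin.cons (c 0 x) (fun q => c q.succ (D q)) : Fin (r + 1) → β)
        = ∑ x, ρ 0 x * ((∑ S : Fin r → β, (∏ q : Fin r, ν q.succ (S q)) *
          g (Fin.cons (c 0 x) S : Fin (r + 1) → β)) * κ ^ r) := by
          refine Finset.sum_congr rfl fun x _ => ?_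
          rw [← hin x, Finset.mul_sum]
          exact Finset.sum_congr rfl fun D _ => by ring
      _ = (∑ y, ν 0 y * ∑ S : Fin r → β, (∏ q : Fin r, ν q.succ (S q)) *
          g (Fin.cons y S : Fin (r + 1) → β)) * κ ^ (r + 1) := by
          rw [h 0 (fun y => (∑ S : Fin r → β, (∏ q : Fin r, ν q.succ (S q)) *
            g (Fin.cons y S : Fin (r + 1) → β)) * κ ^ r), pow_succ, ← mul_assoc]
          have e : ∀ y : β, ν 0 y * ((∑ S : Fin r → β, (∏ q : Fin r, ν q.succ (S q)) *
            g (Fin.cons y S : Fin (r + 1) → β)) * κ ^ r) = ν 0 y * (∑ S : Fin r → β,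
            (∏ q : Fin r, ν q.succ (S q)) * g (Fin.cons y S : Fin (r + 1) → β)) * κ ^ r :=
            fun y => (mul_assoc _ _ _).symm
          simp only [e]
          rw [← Finset.sum_mul]
      _ = (∑ y, ∑ S : Fin r → β, ν 0 y * (∏ q : Fin r, ν q.succ (S q)) *
          g (Fin.cons y S : Fin (r + 1) → β)) * κ ^ (r + 1) := by
          have e : ∀ y : β, ν 0 y * ∑ S : Fin r → β, (∏ q : Fin r, ν q.succ (S q)) *
              g (Fin.cons y S : Fin (r + 1) → β) = ∑ S : Fin r → β,
              ν 0 y * (∏ q : Fin r, ν q.succ (S q)) * g (Fin.cons y S : Fin (r + 1) → β) := by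
            intro y
            rw [Finset.mul_sum]
            exact Finset.sum_congr rfl fun S _ => (mul_assoc _ _ _).symm
          simp only [e]

theorem law4 {m L : ℕ} (hL : 0 < L) (a b : Fin 4 → Fin m → Fin m → Fin L → ℕ)
    (c : Fin 4 → Fin m → Fin m → Fin (2 * L) → ℕ) (d : Fin 4 → Fin 3 → Bool)
    (Ψ : (Fin 4 → Tri m) → (Fin 4 → Arr m L) → ℝ) :
    ∑ D : Fin 4 → Data m L, (∏ q, mass (a q) (b q) (c q) (D q)) *
      Ψ (fun q => (D q).2.1) (fun q => corner (d q) (D q)) =
      (∑ T : Fin 4 → Tri m, ∑ S : Fin 4 → Arr m L,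
        (∏ q, densT (d q) (a q) (b q) (c q) (T q) (S q)) * Ψ T S) /
        (Fintype.card (Arr m L) * (m : ℝ) ^ 3) ^ 4 := by
  have h := push2 4 (fun q => mass (a q) (b q) (c q))
    (fun q (y : Tri m × Arr m L) => densT (d q) (a q) (b q) (c q) y.1 y.2)
    (fun q (D : Data m L) => ((D.2.1, corner (d q) D) : Tri m × Arr m L))
    ((Fintype.card (Arr m L) * (m : ℝ) ^ 3)⁻¹)
    (fun q g => by
      have h1 := Pool.Agent.Helper14.DG.law1 hL (a q) (b q) (c q) (d q) (fun T S => g (T, S))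
      rw [h1, div_eq_mul_inv]
      congr 1
      rw [← Fintype.sum_prod_type (fun y : Tri m × Arr m L =>
        densT (d q) (a q) (b q) (c q) y.1 y.2 * g (y.1, y.2))])
    (fun y => Ψ (fun q => (y q).1) (fun q => (y q).2))
  rw [div_eq_mul_inv, ← inv_pow]
  refine h.trans ?_
  congr 1
  rw [← Fintype.sum_prod_type (fun y : (Fin 4 → Tri m) × (Fin 4 → Arr m L) =>
    (∏ q, densT (d q) (a q) (b q) (c q) (y.1 q) (y.2 q)) * Ψ y.1 y.2)]
  refine Fintype.sum_equiv (Equiv.arrowProdEquivProdArrow _ _ _) _ _ (fun y => ?_)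
  rfl

end Pool.Agent.Helper18.DG
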